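import Mathlib

namespace Pool.Agent.Results.MP_d1ccd0_al.Counterexample

open Multiset

/-- The free abelian monoid on three primes, written additively. -/
abbrev F := ℕ × ℕ × ℕ

/-- `a` is an atom of the (reduced) monoid `H`. -/
def IsAtomIn (H : AddSubmonoid F) (a : F) : Prop :=
  a ∈ H ∧ a ≠ 0 ∧ ∀ b ∈ H, ∀ c ∈ H, a = b + c → b = 0 ∨ c = 0

/-- The factorizations of `a` in `H`. -/
def Fac (H : AddSubmonoid F) (a : F) : Set (Multiset F) :=
  {z | (∀ u ∈ z, IsAtomIn H u) ∧ z.sum = a}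

/-- The distance of two factorizations. -/
def dis (z z' : Multiset F) : ℕ := max (z - z ∩ z').card (z' - z ∩ z').card

/-- There is a monotone `N`-chain of factorizations of `a` from `z` to `z'`. -/
def MonoChain (H : AddSubmonoid F) (a : F) (N : ℕ) (z z' : Multiset F) : Prop :=
  ∃ (r : ℕ) (f : ℕ → Multiset F), f 0 = z ∧ f r = z' ∧ (∀ i ≤ r, f i ∈ Fac H a) ∧
    (∀ i < r, dis (f i) (f (i + 1)) ≤ N) ∧
    ((∀ i < r, (f i).card ≤ (f (i + 1)).card) ∨ ∀ i < r, (f (i + 1)).card ≤ (f i).card)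

def I (u : F) : Prop :=
  2 ≤ u.2.2 ∨ (2 ≤ u.1 ∧ 1 ≤ u.2.2) ∨ (2 ≤ u.2.1 ∧ 1 ≤ u.2.2) ∨ (1 ≤ u.1 ∧ 1 ≤ u.2.1)

lemma I_add {a : F} (h : I a) (x : F) : I (a + x) := by
  simp only [I, Prod.fst_add, Prod.snd_add] at *
  omega

def H : AddSubmonoid F where
  carrier := {u | u = 0 ∨ I u}
  zero_mem' := .inl rfl
  add_mem' := by
    rintro a b (rfl | ha) hb
    · simpa using hb
    · exact .inr (I_add ha b)

lemma mem_H {u : F} : u ∈ H ↔ u = 0 ∨ I u := Iff.rfl

lemma atom_of {u : F} (h : I u) (h2 : ∀ b c, I b → I c → u ≠ b + c) : IsAtomIn H u := by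
  refine ⟨.inr h, by rintro rfl; simp [I] at h, ?_⟩
  rintro b (hb | hb) c (hc | hc) e
  exacts [.inl hb, .inl hb, .inr hc, (h2 b c hb hc e).elim]

def T (u : F) : Prop := u.2.2 ≤ 3 ∧ (u.2.2 = 3 → u.1 + u.2.1 ≤ 1) ∧ (u.2.2 = 2 → u.1 + u.2.1 ≤ 3) ∧
  (u.2.2 = 1 → u.1 = 0 ∨ u.2.1 = 0 ∨ u.1 + u.2.1 ≤ 3)

lemma T_of {u : F} (h : IsAtomIn H u) : T u := by
  obtain ⟨x, y, z⟩ := u
  have key : ∀ p q r, I (p, q, r) → p ≤ x → q ≤ y → r ≤ z → ¬ I (x - p, y - q, z - r) := by
    intro p q r h1 hp hq hr h2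
    rcases h.2.2 _ (.inr h1) _ (.inr h2) (by simp; omega) with e | e
    · rw [e] at h1; simp [I] at h1
    · rw [e] at h2; simp [I] at h2
  have k1 := key 0 0 2 (by simp [I])
  have k2 := key 2 0 1 (by simp [I])
  have k3 := key 0 2 1 (by simp [I])
  have k4 := key 1 1 0 (by simp [I])
  simp only [I, T] at *
  omega

lemma lemS (w : Multiset F) (h : ∀ u ∈ w, T u ∧ 2 ≤ u.2.2) :
    w.sum.1 + w.sum.2.1 + 2 * w.sum.2.2 ≤ 7 * w.card := by
  induction w using Multiset.induction_on with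
  | empty => simp
  | cons a w ih =>
    have h1 := ih fun u hu => h u (mem_cons_of_mem hu)
    have h2 := h a (mem_cons_self _ _)
    simp only [sum_cons, card_cons, Prod.fst_add, Prod.snd_add, T] at *
    omega

lemma lemR (w : Multiset F) (h : ∀ u ∈ w, T u) : w.sum.2.2 ≤ 3 * w.card ∧
    (w.sum.2.2 = 3 * w.card → w.sum.2.1 ≤ w.count (0, 1, 3) ∧ w.sum.1 ≤ w.count (1, 0, 3) ∧
      w.sum.1 + w.sum.2.1 ≤ w.card) := by
  induction w using Multiset.induction_on with
  | empty => simp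
  | cons a w ih =>
    have h1 := ih fun u hu => h u (mem_cons_of_mem hu)
    have h2 := h a (mem_cons_self _ _)
    obtain ⟨x, y, z⟩ := a
    simp only [sum_cons, card_cons, Prod.fst_add, Prod.snd_add, T, count_cons, Prod.mk.injEq] at *
    split_ifs <;> omega

lemma dich {n : ℕ} (hn : 6 ≤ n) {w : Multiset F} (hw : w ∈ Fac H (n, n, 3 * n + 1))
    (hc : w.card = n + 1) : n ≤ w.count (0, 1, 3) ∨ n ≤ w.count (1, 0, 3) := by
  obtain ⟨h1, h2⟩ := hw
  by_cases h : ∀ u ∈ w, 2 ≤ u.2.2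
  · have := lemS w fun u hu => ⟨T_of (h1 u hu), h u hu⟩
    rw [h2, hc] at this
    simp only at this
    omega
  · push Not at h
    obtain ⟨u, hu, hu2⟩ := h
    obtain ⟨w, rfl⟩ := exists_cons_of_mem hu
    have h3 := lemR w fun v hv => T_of (h1 v (mem_cons_of_mem hv))
    have h4 := T_of (h1 u hu)
    have h5 := count_le_count_cons (0, 1, 3) u w
    have h6 := count_le_count_cons (1, 0, 3) u w
    simp only [sum_cons, card_cons, Prod.ext_iff, Prod.fst_add, Prod.snd_add, T] at h2 hc h4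
    omega

lemma count_add (w : Multiset F) : w.count (0, 1, 3) + w.count (1, 0, 3) ≤ w.card := by
  induction w using Multiset.induction_on with
  | empty => simp
  | cons a w ih =>
    obtain ⟨x, y, z⟩ := a
    simp only [card_cons, count_cons, Prod.mk.injEq]
    split_ifs <;> omega

theorem result : ∃ H : AddSubmonoid F, (∀ a ∈ H, a ≠ 0 → ∀ x, a + x ∈ H) ∧
    ∀ N : ℕ, ∃ a ∈ H, ∃ z ∈ Fac H a, ∃ z' ∈ Fac H a, z.card = z'.card ∧
      ¬ MonoChain H a N z z' := by
  refine ⟨H, fun a ha h0 x => .inr (I_add (ha.resolve_left h0) x), fun N => ?_⟩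
  obtain ⟨n, hn, hN⟩ : ∃ n, 6 ≤ n ∧ N + 1 < n := ⟨N + 6, by omega, by omega⟩
  have at1 : ∀ u : F, u = (n, 0, 1) ∨ u = (0, 1, 3) ∨ u = (0, n, 1) ∨ u = (1, 0, 3) →
      IsAtomIn H u := by
    intro u hu
    refine atom_of (by rcases hu with rfl | rfl | rfl | rfl <;> simp [I] <;> omega) ?_
    rintro ⟨a, b, c⟩ ⟨d, e, f⟩ h1 h2 rfl
    simp only [I, Prod.mk_add_mk, Prod.mk.injEq] at *
    omega
  refine ⟨(n, n, 3 * n + 1), .inr (by simp [I]; omega),
    (n, 0, 1) ::ₘ replicate n (0, 1, 3), ⟨fun u hu => at1 u ?_, by simp; omega⟩,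
    (0, n, 1) ::ₘ replicate n (1, 0, 3), ⟨fun u hu => at1 u ?_, by simp; omega⟩, by simp, ?_⟩
  · simp only [mem_cons, mem_replicate] at hu; tauto
  · simp only [mem_cons, mem_replicate] at hu; tauto
  rintro ⟨r, f, h0, hr, hF, hd, hm⟩
  have c0 : (f 0).card = n + 1 := by simp [h0]
  have cr : (f r).card = n + 1 := by simp [hr]
  have hc : ∀ i ≤ r, (f i).card = n + 1 := by
    intro i hi
    rcases hm with hm | hm
    · have m := monotoneOn_of_le_add_one (f := fun i => (f i).card) (s := Set.Iic r)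
        Set.ordConnected_Iic fun a _ _ ha => hm a ha
      have a1 := m (Nat.zero_le r) hi (Nat.zero_le i)
      have a2 := m hi (le_refl r) hi
      simp only at a1 a2
      omega
    · have m := antitoneOn_of_add_one_le (f := fun i => (f i).card) (s := Set.Iic r)
        Set.ordConnected_Iic fun a _ _ ha => hm a ha
      have a1 := m (Nat.zero_le r) hi (Nat.zero_le i)
      have a2 := m hi (le_refl r) hi
      simp only at a1 a2
      omega
  have hP : ∀ i ≤ r, n ≤ (f i).count (0, 1, 3) := by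
    intro i hi
    induction i with
    | zero => simp [h0]
    | succ i ih =>
      have a1 := ih (by omega)
      refine (dich hn (hF _ hi) (hc _ hi)).resolve_right fun a2 => ?_
      have a3 := count_add (f i)
      have a4 := (le_max_right _ _).trans (hd i hi)
      have a5 := count_le_card (1, 0, 3) (f (i + 1) - f i ∩ f (i + 1))
      rw [count_sub, count_inter] at a5
      have a6 := hc i (by omega)
      omega
  have := hP r le_rfl
  simp [hr, count_replicate] at this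
  omega

end Pool.Agent.Results.MP_d1ccd0_al.Counterexample
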